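import Pool.Agent.Work.MP_1346a1_co.OneMain

/-! For `k ≥ 3` and order `1` modulo `k + 1` the kernel of an extremal graph that is large or has
a pendant `k`-clique has `1`, `k + 2` or `2 k + 3` vertices. -/

namespace Pool.Agent.Results.MP_1346a1_co.ExactOne

open Pool.Agent.IsoDefs

theorem result (i k : ℕ) (hi : i = 1 ∨ i = 2 ∨ i = 3) (hk : 3 ≤ k)
    {V : Type*} [Fintype V] (G : SimpleGraph V) (hG : G.Connected)
    (hn : Fintype.card V % (k + 1) = 1)
    (hp : 2 * 10 ^ 12 * (k + 1) ^ 14 < Fintype.card V ∨ ∃ y P, IsPendant k G y P) :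
    iota i k G = Fintype.card V / (k + 1) ↔
      ∃ (S : Finset V) (Q : V → Finset V), IsUnitFamily k G S Q ∧
        ((kernelSet S Q).ncard = 1 ∨
          ((kernelSet S Q).ncard = k + 2 ∧ HasF i k G (kernelSet S Q \ closedNbhd G S)) ∨
          ((kernelSet S Q).ncard = 2 * k + 3 ∧ ∀ d ∈ kernelSet S Q,
            HasF i k G (kernelSet S Q \ (closedNbhd G S ∪ closedNbhd G {d})))) :=
  Pool.Agent.IsoKer.one_main hi hk hG hn hp

end Pool.Agent.Results.MP_1346a1_co.ExactOne
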