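import Pool.Agent.Work.MP_1346a1_co.Two

/-! For `k ≥ 3` and every order `q (k + 1)` the extremal graphs are listed explicitly. -/

namespace Pool.Agent.Results.MP_1346a1_co.ExactZero

open Pool.Agent.IsoDefs

theorem result (i k q : ℕ) (hi : i = 1 ∨ i = 2 ∨ i = 3) (hk : 3 ≤ k)
    {V : Type*} [Fintype V] (G : SimpleGraph V) (hG : G.Connected)
    (hn : Fintype.card V = q * (k + 1)) :
    iota i k G = q ↔ IsPure k G ∨
      (q = 2 ∧ (IsMatchedPair k G ∨ IsPentagon k G ∨ (k = 3 ∧ IsSquare i G) ∨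
        (i = 3 ∧ (IsTwisted k G ∨ IsLayered k G ∨ IsHubPair k G ∨ IsLadder k G ∨ IsKite k G ∨
          IsCross k G)))) ∨
      (q = 1 ∧ ((i ≠ 2 ∧ HasCocktail G) ∨ (i = 3 ∧ ∃ c, ∀ x, x ≠ c → G.Adj c x))) :=
  Pool.Agent.IsoTwo.complete_main hi hk hG hn

end Pool.Agent.Results.MP_1346a1_co.ExactZero
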