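import Pool.Agent.Work.MP_1346a1_co.Sharp

/-! For `i = 1, 2` and `k ≥ 11` the kernel of an extremal graph has at most `(2 k + 3) r`
vertices, or `(2 k + 3) r + 2 k + 2` if there is no unit, where `r` is the order modulo
`k + 1`. -/

namespace Pool.Agent.Results.MP_1346a1_co.LinearKernel

open Pool.Agent.IsoDefs

theorem result (i k : ℕ) (hi : i = 1 ∨ i = 2) (hk : 11 ≤ k)
    {V : Type*} [Fintype V] (G : SimpleGraph V) (hG : G.Connected) :
    iota i k G = Fintype.card V / (k + 1) ↔
      ∃ (S : Finset V) (Q : V → Finset V), IsUnitFamily k G S Q ∧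
        (∀ y ∈ kernelSet S Q, ∀ P : Finset V, (P : Set V) ⊆ kernelSet S Q → ¬ IsPendant k G y P) ∧
        (S.Nonempty → (kernelSet S Q).ncard ≤ (2 * k + 3) * (Fintype.card V % (k + 1))) ∧
        (kernelSet S Q).ncard ≤ (2 * k + 3) * (Fintype.card V % (k + 1)) + (2 * k + 2) ∧
        (kernelMarks G S Q).ncard ≤ 2 * (Fintype.card V % (k + 1)) ∧
        iotaMarked i k (G.induce (kernelSet S Q)) (kernelMarks G S Q) =
          (kernelSet S Q).ncard / (k + 1) :=
  Pool.Agent.IsoSharp.sharp_main hi hk hG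

end Pool.Agent.Results.MP_1346a1_co.LinearKernel
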